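import Mathlib
import Pool.Agent.N675.A3.Stm
import Pool.Agent.N368.A3.Fou

/-! Step T2 of project A3 (helper368, for helper675). -/

namespace Pool.Agent.N368.A3

open Finset Pool.Agent.N675 Pool.Agent.N675.A3

/-- the Fourier coefficient of `d ↦ c (d + h) conj (c (d + h'))` -/
noncomputable def Gh (c : ℕ → ℂ) (D h h' : ℕ) (t : ℝ) : ℂ :=
  (∑ d ∈ Icc 1 D, c (d + h) * (starRingEnd ℂ) (c (d + h')) * eR (-(d * t))) / D

lemma norm_avg_le {D : ℕ} (S : Finset ℕ) (hS : S.card = D) (z : ℕ → ℂ) (hz : ∀ d ∈ S, ‖z d‖ ≤ 1) :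
    ‖(∑ d ∈ S, z d) / D‖ ≤ 1 := by
  rcases Nat.eq_zero_or_pos D with h0 | h0
  · rw [h0]; simp
  · have hD : (0 : ℝ) < D := by exact_mod_cast h0
    rw [norm_div, Complex.norm_natCast, div_le_one hD]
    refine (norm_sum_le _ _).trans ?_
    refine (sum_le_sum hz).trans ?_
    rw [sum_const, nsmul_eq_mul, mul_one, hS]

lemma norm_avg_sq_le {D : ℕ} (S : Finset ℕ) (hS : S.card = D) (z : ℕ → ℂ) (hz : ∀ d ∈ S, ‖z d‖ ≤ 1) :
    ‖(∑ d ∈ S, z d) / D‖ ^ 2 ≤ 1 :=
  pow_le_one₀ (norm_nonneg _) (norm_avg_le S hS z hz)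

lemma norm_ff {f : ℕ → ℝ} (hf : ∀ n, |f n| ≤ 1) (m n : ℕ) : ‖((f m * f n : ℝ) : ℂ)‖ ≤ 1 := by
  rw [Complex.norm_real, Real.norm_eq_abs, abs_mul]
  exact mul_le_one₀ (hf _) (abs_nonneg _) (hf _)

lemma norm_cc {c : ℕ → ℂ} (hc : ∀ t, ‖c t‖ ≤ 1) (m n : ℕ) : ‖c m * (starRingEnd ℂ) (c n)‖ ≤ 1 := by
  rw [norm_mul, Complex.norm_conj]
  exact mul_le_one₀ (hc _) (norm_nonneg _) (hc _)

lemma avg_le_one {x : ℕ} (hx : 0 < x) (G : ℕ → ℝ) (h : ∀ n ∈ Icc 1 x, G n ≤ 1) :
    (∑ n ∈ Icc 1 x, G n) / x ≤ 1 := by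
  have hx0 : (0 : ℝ) < x := by exact_mod_cast hx
  rw [div_le_one hx0]
  refine (sum_le_sum h).trans ?_
  rw [sum_const, nsmul_eq_mul, mul_one, Nat.card_Icc]
  simp

lemma SS_le_one {f : ℕ → ℝ} (hf : ∀ n, |f n| ≤ 1) (b : ℕ) {x : ℕ} (hx : 0 < x) (K m : ℕ) (θ : ℝ) :
    SS f b x K m θ ≤ 1 := by
  unfold SS
  apply avg_le_one hx
  intro n _
  apply norm_avg_sq_le (range K) (card_range K)
  intro k _
  rw [norm_mul, norm_eR, mul_one]
  exact norm_ff hf _ _

lemma SS_nonneg (f : ℕ → ℝ) (b x K m : ℕ) (θ : ℝ) : 0 ≤ SS f b x K m θ := by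
  unfold SS
  positivity

lemma QQ_nonneg (f : ℕ → ℝ) (b b₂ x D : ℕ) (c : ℕ → ℂ) (h h' : ℕ) : 0 ≤ QQ f b b₂ x D c h h' := by
  unfold QQ
  positivity

lemma QQ_le_one {f : ℕ → ℝ} (hf : ∀ n, |f n| ≤ 1) {c : ℕ → ℂ} (hc : ∀ t, ‖c t‖ ≤ 1) (b b₂ : ℕ) {x : ℕ}
    (hx : 0 < x) (D h h' : ℕ) : QQ f b b₂ x D c h h' ≤ 1 := by
  unfold QQ
  apply avg_le_one hx
  intro n _
  apply norm_avg_sq_le (Icc 1 D) (by simp)
  intro d _
  rw [norm_mul]
  exact mul_le_one₀ (norm_cc hc _ _) (norm_nonneg _) (norm_ff hf _ _)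

lemma QQ_symm (f : ℕ → ℝ) (b b₂ x D : ℕ) (c : ℕ → ℂ) (h h' : ℕ) :
    QQ f b b₂ x D c h' h = QQ f b b₂ x D c h h' := by
  unfold QQ
  congr 1
  apply sum_congr rfl
  intro n _
  rw [← Complex.norm_conj, map_div₀, map_sum]
  congr 3
  · apply sum_congr rfl
    intro d _
    rw [map_mul, map_mul, Complex.conj_conj, Complex.conj_ofReal]
    push_cast
    ring
  · exact Complex.conj_natCast D

/-- the main inequality for one pair -/
lemma QQ_le {f : ℕ → ℝ} (hf : ∀ n, |f n| ≤ 1) {c : ℕ → ℂ} (hc : ∀ t, ‖c t‖ ≤ 1) (b b₂ : ℕ) {x K D : ℕ}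
    (hx : 0 < x) (hD : 0 < D) (hDK : D ≤ K) (h g : ℕ) :
    QQ f b b₂ x D c h (h + g) ≤
      ∑ j ∈ range K, ‖Gh c D h (h + g) ((j : ℝ) / K)‖ ^ 2 * SS f b x K (b₂ * g) ((j : ℝ) / K) +
        D / K + (b * K + b₂ * h) / x := by
  have hK : 0 < K := lt_of_lt_of_le hD hDK
  have hx0 : (0 : ℝ) < x := by exact_mod_cast hx
  have hK0 : (0 : ℝ) < K := by exact_mod_cast hK
  have hD0 : (0 : ℝ) < D := by exact_mod_cast hD
  set Γ : ℕ → ℂ := fun d => c (d + h) * (starRingEnd ℂ) (c (d + (h + g))) with hΓ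
  set F : ℕ → ℂ := fun n => ((f n * f (n + b₂ * g) : ℝ) : ℂ) with hF
  set Z : ℕ → ℝ := fun n => ‖(∑ d ∈ Icc 1 D, Γ d * F (n + b * d)) / D‖ ^ 2 with hZ
  have hZ0 : ∀ n, 0 ≤ Z n := fun n => by positivity
  have hZ1 : ∀ n, Z n ≤ 1 := by
    intro n
    apply norm_avg_sq_le (Icc 1 D) (by simp)
    intro d _
    rw [norm_mul]
    exact mul_le_one₀ (norm_cc hc _ _) (norm_nonneg _) (norm_ff hf _ _)
  -- first shift
  have h1 : QQ f b b₂ x D c h (h + g) ≤ (∑ n ∈ Icc 1 x, Z n) / x + b₂ * h / x := by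
    have e1 : QQ f b b₂ x D c h (h + g) = (∑ n ∈ Icc 1 x, Z (n + b₂ * h)) / x := by
      unfold QQ
      congr 1
      apply sum_congr rfl
      intro n _
      simp only [hZ, hΓ, hF]
      congr 3
      apply sum_congr rfl
      intro d _
      congr 2
      have e2 : n + b * d + b₂ * h = n + b₂ * h + b * d := by ring
      have e3 : n + b * d + b₂ * (h + g) = n + b₂ * h + b * d + b₂ * g := by ring
      rw [e2, e3]
    rw [e1, ← add_div]
    apply div_le_div_of_nonneg_right _ hx0.le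
    have := shift_up Z hZ0 hZ1 x (b₂ * h)
    push_cast at this
    exact this
  -- second shift
  have h2 : ∑ n ∈ Icc 1 x, Z n ≤ ∑ n ∈ Icc 1 x, (∑ k ∈ range K, Z (n + b * k)) / K + b * K := by
    have e1 : ∀ k ∈ range K, ∑ n ∈ Icc 1 x, Z n ≤ ∑ n ∈ Icc 1 x, Z (n + b * k) + b * K := by
      intro k hk
      have e2 := shift_dn Z hZ0 hZ1 x (b * k)
      have e3 : ((b * k : ℕ) : ℝ) ≤ b * K := by
        have : b * k ≤ b * K := Nat.mul_le_mul_left _ (mem_range.1 hk).le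
        exact_mod_cast this
      linarith
    have e2 := sum_le_sum e1
    rw [sum_const, card_range, nsmul_eq_mul, sum_add_distrib, sum_const, card_range, nsmul_eq_mul, sum_comm] at e2
    have e3 : ∑ n ∈ Icc 1 x, (∑ k ∈ range K, Z (n + b * k)) / K =
        (∑ n ∈ Icc 1 x, ∑ k ∈ range K, Z (n + b * k)) / K := by
      rw [sum_div]
    rw [e3]
    have e4 : (K : ℝ) * ∑ n ∈ Icc 1 x, Z n ≤ K * ((∑ n ∈ Icc 1 x, ∑ k ∈ range K, Z (n + b * k)) / K + b * K) := by
      have e5 : (K : ℝ) * ((∑ n ∈ Icc 1 x, ∑ k ∈ range K, Z (n + b * k)) / K + b * K) =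
          ∑ n ∈ Icc 1 x, ∑ k ∈ range K, Z (n + b * k) + K * (b * K) := by
        field_simp
      rw [e5]
      exact e2
    exact le_of_mul_le_mul_left e4 hK0
  -- the correlation for one n
  have h3 : ∀ n ∈ Icc 1 x, (∑ k ∈ range K, Z (n + b * k)) / K ≤
      ∑ j ∈ range K, ‖Gh c D h (h + g) ((j : ℝ) / K)‖ ^ 2 *
        ‖(∑ k ∈ range K, ((f (n + b * k) * f (n + b * k + b₂ * g) : ℝ) : ℂ) * eR (k * ((j : ℝ) / K))) / K‖ ^ 2 +
        D / K := by
    intro n _
    set A : ℕ → ℂ := fun s => F (n + b * s) with hA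
    have e1 := corr K D hK A Γ
    have e2 : ∑ k ∈ range K, Z (n + b * k) ≤
        ∑ k ∈ range K, ‖∑ d ∈ Icc 1 D, A ((k + d) % K) * Γ d‖ ^ 2 / D ^ 2 + D := by
      have e3 : ∀ k ∈ range K, Z (n + b * k) ≤
          ‖∑ d ∈ Icc 1 D, A ((k + d) % K) * Γ d‖ ^ 2 / D ^ 2 + (if K ≤ k + D then 1 else 0) := by
        intro k _
        split_ifs with hkd
        · have : (0 : ℝ) ≤ ‖∑ d ∈ Icc 1 D, A ((k + d) % K) * Γ d‖ ^ 2 / D ^ 2 := by positivity
          linarith [hZ1 (n + b * k)]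
        · rw [add_zero]
          simp only [hZ]
          rw [norm_div, Complex.norm_natCast, div_pow]
          apply le_of_eq
          congr 3
          apply sum_congr rfl
          intro d hd
          rw [mem_Icc] at hd
          rw [Nat.mod_eq_of_lt (by omega), mul_comm]
          simp only [hA]
          congr 2
          ring
      refine (sum_le_sum e3).trans ?_
      rw [sum_add_distrib]
      have e4 : ∑ k ∈ range K, (if K ≤ k + D then (1 : ℝ) else 0) ≤ D := by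
        rw [← sum_filter, sum_const, nsmul_eq_mul, mul_one]
        have : ((range K).filter (fun k => K ≤ k + D)).card ≤ D := by
          have hsub : (range K).filter (fun k => K ≤ k + D) ⊆ Ico (K - D) K := by
            intro k hk
            rw [mem_filter, mem_range] at hk
            rw [mem_Ico]
            omega
          refine (card_le_card hsub).trans ?_
          rw [Nat.card_Ico]
          omega
        exact_mod_cast this
      linarith
    have e5 : ∑ k ∈ range K, ‖∑ d ∈ Icc 1 D, A ((k + d) % K) * Γ d‖ ^ 2 / (D : ℝ) ^ 2 =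
        K * ∑ j ∈ range K, ‖Gh c D h (h + g) ((j : ℝ) / K)‖ ^ 2 *
        ‖(∑ k ∈ range K, ((f (n + b * k) * f (n + b * k + b₂ * g) : ℝ) : ℂ) * eR (k * ((j : ℝ) / K))) / K‖ ^ 2 := by
      rw [← sum_div, e1, mul_sum, sum_div, sum_div]
      apply sum_congr rfl
      intro j _
      unfold Gh
      rw [norm_div, norm_div, Complex.norm_natCast, Complex.norm_natCast, div_pow, div_pow]
      simp only [hA, hF, hΓ]
      generalize ‖∑ s ∈ range K, ((f (n + b * s) * f (n + b * s + b₂ * g) : ℝ) : ℂ) * eR (s * ((j : ℝ) / K))‖ = u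
      generalize ‖∑ d ∈ Icc 1 D, c (d + h) * (starRingEnd ℂ) (c (d + (h + g))) * eR (-(d * ((j : ℝ) / K)))‖ = v
      field_simp
    rw [e5] at e2
    rw [div_le_iff₀ hK0]
    refine e2.trans (le_of_eq ?_)
    field_simp
  -- assembly
  have h4 : ∑ n ∈ Icc 1 x, (∑ k ∈ range K, Z (n + b * k)) / K ≤
      x * (∑ j ∈ range K, ‖Gh c D h (h + g) ((j : ℝ) / K)‖ ^ 2 * SS f b x K (b₂ * g) ((j : ℝ) / K) + D / K) := by
    refine (sum_le_sum h3).trans (le_of_eq ?_)
    rw [sum_add_distrib, sum_const, Nat.card_Icc, Nat.add_sub_cancel, nsmul_eq_mul, sum_comm, mul_add]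
    congr 1
    rw [mul_sum]
    apply sum_congr rfl
    intro j _
    unfold SS
    rw [← mul_sum]
    field_simp
  have h5 : (∑ n ∈ Icc 1 x, Z n) / x ≤
      ∑ j ∈ range K, ‖Gh c D h (h + g) ((j : ℝ) / K)‖ ^ 2 * SS f b x K (b₂ * g) ((j : ℝ) / K) + D / K +
        b * K / x := by
    rw [div_le_iff₀ hx0]
    refine (h2.trans (add_le_add h4 le_rfl)).trans (le_of_eq ?_)
    field_simp
  have h6 : ((b : ℝ) * K + b₂ * h) / x = b * K / x + b₂ * h / x := add_div _ _ _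
  rw [h6]
  linarith

/-- the Fourier coefficients on average over all frequencies -/
lemma Gh_sum {c : ℕ → ℂ} (hc : ∀ t, ‖c t‖ ≤ 1) {K D : ℕ} (hD : 0 < D) (hDK : D ≤ K) (h h' : ℕ) :
    ∑ j ∈ range K, ‖Gh c D h h' ((j : ℝ) / K)‖ ^ 2 ≤ K / D := by
  have hK : 0 < K := lt_of_lt_of_le hD hDK
  have hD0 : (0 : ℝ) < D := by exact_mod_cast hD
  have h1 := parseval_neg K hK (Icc 1 D) (by
    intro s hs t ht hd
    rw [mem_Icc] at hs ht
    obtain ⟨k, hk⟩ := hd
    have hk0 : k = 0 := by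
      have h1 : (K : ℤ) * k < K * 1 := by rw [← hk]; omega
      have h2 : (K : ℤ) * (-1) < K * k := by rw [← hk]; omega
      have h3 := lt_of_mul_lt_mul_left h1 (by positivity)
      have h4 := lt_of_mul_lt_mul_left h2 (by positivity)
      omega
    rw [hk0, mul_zero] at hk
    omega) (fun d => c (d + h) * (starRingEnd ℂ) (c (d + h')))
  have h2 : ∑ j ∈ range K, ‖Gh c D h h' ((j : ℝ) / K)‖ ^ 2 =
      (K * ∑ s ∈ Icc 1 D, ‖c (s + h) * (starRingEnd ℂ) (c (s + h'))‖ ^ 2) / D ^ 2 := by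
    rw [← h1, sum_div]
    apply sum_congr rfl
    intro j _
    unfold Gh
    rw [norm_div, Complex.norm_natCast, div_pow]
  rw [h2, div_le_div_iff₀ (by positivity) hD0]
  have h3 : ∑ s ∈ Icc 1 D, ‖c (s + h) * (starRingEnd ℂ) (c (s + h'))‖ ^ 2 ≤ D := by
    refine (sum_le_sum (fun s _ => pow_le_one₀ (norm_nonneg _) (norm_cc hc _ _))).trans ?_
    rw [sum_const, Nat.card_Icc, Nat.add_sub_cancel, nsmul_eq_mul, mul_one]
  calc (K : ℝ) * (∑ s ∈ Icc 1 D, ‖c (s + h) * (starRingEnd ℂ) (c (s + h'))‖ ^ 2) * D ≤ K * D * D := by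
        apply mul_le_mul_of_nonneg_right _ hD0.le
        exact mul_le_mul_of_nonneg_left h3 (by positivity)
    _ = K * (D : ℝ) ^ 2 := by ring

/-- the Fourier coefficients at one frequency, on average over the pairs -/
lemma Gh_avg {c : ℕ → ℂ} (hc : ∀ t, ‖c t‖ ≤ 1) {D H : ℕ} (hD : 0 < D) (ε₁ : ℝ)
    (hcf : ∀ ξ : ℝ, ‖∑ t ∈ Icc 1 (D + H), c t * eR (t * ξ)‖ ≤ ε₁ * D) (t : ℝ) :
    ∑ h ∈ Icc 1 H, ∑ h' ∈ Icc 1 H, ‖Gh c D h h' t‖ ^ 2 ≤ H * (ε₁ ^ 2 * D) := by
  have hD0 : (0 : ℝ) < D := by exact_mod_cast hD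
  rw [sum_comm]
  have key : ∀ h' ∈ Icc 1 H, ∑ h ∈ Icc 1 H, ‖Gh c D h h' t‖ ^ 2 ≤ ε₁ ^ 2 * D := by
    intro h' _
    set M := D + H + 1 with hM
    have hM0 : 0 < M := by omega
    have hMR : (0 : ℝ) < M := by exact_mod_cast hM0
    set A : ℕ → ℂ := fun s => if s = 0 then 0 else c s with hA
    set B : ℕ → ℂ := fun d => (starRingEnd ℂ) (c (d + h')) * eR (-(d * t)) with hB
    have hB1 : ∀ d, ‖B d‖ ≤ 1 := by
      intro d
      simp only [hB]
      rw [norm_mul, norm_eR, mul_one, Complex.norm_conj]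
      exact hc _
    have e1 := corr M D hM0 A B
    have e2 : ∑ h ∈ Icc 1 H, ‖Gh c D h h' t‖ ^ 2 ≤
        (∑ h ∈ range M, ‖∑ d ∈ Icc 1 D, A ((h + d) % M) * B d‖ ^ 2) / D ^ 2 := by
      have hsub : Icc 1 H ⊆ range M := by
        intro k hk
        rw [mem_Icc] at hk
        rw [mem_range]
        omega
      rw [sum_div]
      refine le_trans (le_of_eq ?_) (sum_le_sum_of_subset_of_nonneg hsub (fun _ _ _ => by positivity))
      apply sum_congr rfl
      intro h hh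
      rw [mem_Icc] at hh
      unfold Gh
      rw [norm_div, Complex.norm_natCast, div_pow]
      congr 3
      apply sum_congr rfl
      intro d hd
      rw [mem_Icc] at hd
      rw [Nat.mod_eq_of_lt (by omega)]
      simp only [hA, hB]
      rw [if_neg (by omega), add_comm h d]
      ring
    have e3 : ∀ j ∈ range M, ‖∑ s ∈ range M, A s * eR (s * ((j : ℝ) / M))‖ ^ 2 *
        ‖∑ d ∈ Icc 1 D, B d * eR (-(d * ((j : ℝ) / M)))‖ ^ 2 ≤
        (ε₁ * D) ^ 2 * ‖∑ d ∈ Icc 1 D, B d * eR (-(d * ((j : ℝ) / M)))‖ ^ 2 := by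
      intro j _
      apply mul_le_mul_of_nonneg_right _ (by positivity)
      apply pow_le_pow_left₀ (norm_nonneg _)
      have e4 : ∑ s ∈ range M, A s * eR (s * ((j : ℝ) / M)) =
          ∑ s ∈ Icc 1 (D + H), c s * eR (s * ((j : ℝ) / M)) := by
        have hsub : Icc 1 (D + H) ⊆ range M := by
          intro k hk
          rw [mem_Icc] at hk
          rw [mem_range]
          omega
        rw [← sum_subset hsub]
        · apply sum_congr rfl
          intro s hs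
          rw [mem_Icc] at hs
          simp only [hA]
          rw [if_neg (by omega)]
        · intro s hs1 hs2
          rw [mem_range] at hs1
          rw [mem_Icc] at hs2
          simp only [hA]
          rw [if_pos (by omega), zero_mul]
      rw [e4]
      exact hcf _
    have e5 := parseval_neg M hM0 (Icc 1 D) (by
      intro s hs u hu hd
      rw [mem_Icc] at hs hu
      obtain ⟨k, hk⟩ := hd
      have hk0 : k = 0 := by
        have h1 : (M : ℤ) * k < M * 1 := by rw [← hk]; omega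
        have h2 : (M : ℤ) * (-1) < M * k := by rw [← hk]; omega
        have h3 := lt_of_mul_lt_mul_left h1 (by positivity)
        have h4 := lt_of_mul_lt_mul_left h2 (by positivity)
        omega
      rw [hk0, mul_zero] at hk
      omega) B
    have e6 : ∑ s ∈ Icc 1 D, ‖B s‖ ^ 2 ≤ D := by
      refine (sum_le_sum (fun s _ => pow_le_one₀ (norm_nonneg _) (hB1 s))).trans ?_
      rw [sum_const, Nat.card_Icc, Nat.add_sub_cancel, nsmul_eq_mul, mul_one]
    refine e2.trans ?_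
    rw [e1, div_le_iff₀ (by positivity), div_le_iff₀ hMR]
    refine (sum_le_sum e3).trans ?_
    rw [← mul_sum, e5]
    calc (ε₁ * D) ^ 2 * (M * ∑ s ∈ Icc 1 D, ‖B s‖ ^ 2) ≤ (ε₁ * D) ^ 2 * (M * D) := by
          apply mul_le_mul_of_nonneg_left _ (by positivity)
          exact mul_le_mul_of_nonneg_left e6 hMR.le
      _ = ε₁ ^ 2 * D * D ^ 2 * M := by ring
  refine (sum_le_sum key).trans ?_
  rw [sum_const, Nat.card_Icc, Nat.add_sub_cancel, nsmul_eq_mul]

/-- the number of the major frequencies -/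
lemma count_le (K Q : ℕ) (hK : 0 < K) (S : Finset ℕ) (hS : ∀ j ∈ S, j < K ∧ MA Q K ((j : ℝ) / K)) :
    S.card ≤ 6 * Q ^ 2 := by
  classical
  have hK0 : (0 : ℝ) < K := by exact_mod_cast hK
  set T : ℕ → ℕ → Finset ℕ := fun q i => (range K).filter (fun j => q * j ≤ i * K + Q ∧ i * K ≤ q * j + Q) with hT
  have h1 : S ⊆ (Icc 1 Q).biUnion (fun q => (range (q + 1)).biUnion (fun i => T q i)) := by
    intro j hj
    obtain ⟨hjK, q, hq0, hqQ, i, hi⟩ := hS j hj
    have h2 : |((q * j : ℕ) : ℝ) - i * K| ≤ Q := by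
      have e1 : (q : ℝ) * ((j : ℝ) / K) - i = (((q * j : ℕ) : ℝ) - i * K) / K := by
        push_cast
        field_simp
      rw [e1, abs_div, abs_of_pos hK0, div_le_div_iff_of_pos_right hK0] at hi
      exact hi
    rw [abs_le] at h2
    have h3 : ((q * j : ℕ) : ℤ) ≤ i * K + Q := by
      have : (((q * j : ℕ) : ℤ) : ℝ) ≤ ((i * K + Q : ℤ) : ℝ) := by
        push_cast
        have := h2.2
        push_cast at this
        linarith
      exact_mod_cast this
    have h4 : i * K ≤ ((q * j : ℕ) : ℤ) + Q := by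
      have : ((i * K : ℤ) : ℝ) ≤ ((((q * j : ℕ) : ℤ) + Q : ℤ) : ℝ) := by
        push_cast
        have := h2.1
        push_cast at this
        linarith
      exact_mod_cast this
    have hqj : q * j ≤ q * K := Nat.mul_le_mul_left _ hjK.le
    rw [mem_biUnion]
    refine ⟨q, mem_Icc.2 ⟨hq0, hqQ⟩, ?_⟩
    rw [mem_biUnion]
    rcases lt_or_ge i 0 with hi0 | hi0
    · refine ⟨0, mem_range.2 (by omega), ?_⟩
      simp only [hT, mem_filter, mem_range]
      refine ⟨hjK, ?_, by omega⟩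
      have : i * K ≤ 0 := mul_nonpos_of_nonpos_of_nonneg hi0.le (by positivity)
      have h5 : ((q * j : ℕ) : ℤ) ≤ Q := by linarith
      have h6 : q * j ≤ Q := by exact_mod_cast h5
      omega
    · rcases le_or_gt i q with hiq | hiq
      · obtain ⟨i', rfl⟩ := Int.eq_ofNat_of_zero_le hi0
        refine ⟨i', mem_range.2 (by omega), ?_⟩
        simp only [hT, mem_filter, mem_range]
        refine ⟨hjK, ?_, ?_⟩
        · have h5 : ((q * j : ℕ) : ℤ) ≤ ((i' * K + Q : ℕ) : ℤ) := by push_cast at h3 ⊢; exact h3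
          exact_mod_cast h5
        · have h5 : ((i' * K : ℕ) : ℤ) ≤ ((q * j + Q : ℕ) : ℤ) := by push_cast at h4 ⊢; exact h4
          exact_mod_cast h5
      · refine ⟨q, mem_range.2 (by omega), ?_⟩
        simp only [hT, mem_filter, mem_range]
        refine ⟨hjK, by omega, ?_⟩
        have h5 : (q : ℤ) * K ≤ i * K := mul_le_mul_of_nonneg_right hiq.le (by positivity)
        have h6 : ((q * K : ℕ) : ℤ) ≤ ((q * j + Q : ℕ) : ℤ) := by push_cast at h4 ⊢; linarith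
        exact_mod_cast h6
  have hTc : ∀ q i : ℕ, 0 < q → (T q i).card ≤ 2 * Q / q + 1 := by
    intro q i hq
    rcases (T q i).eq_empty_or_nonempty with he | hne
    · rw [he, card_empty]
      exact Nat.zero_le _
    · set m := (T q i).min' hne with hm
      have hmem : m ∈ T q i := min'_mem _ _
      have hsub : T q i ⊆ Icc m (m + 2 * Q / q) := by
        intro j hj
        have hle : m ≤ j := min'_le _ _ hj
        rw [mem_Icc]
        refine ⟨hle, ?_⟩
        simp only [hT, mem_filter] at hj hmem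
        have e1 : q * (j - m) ≤ 2 * Q := by
          rw [Nat.mul_sub]
          omega
        have e2 : j - m ≤ 2 * Q / q := by
          rw [Nat.le_div_iff_mul_le hq, mul_comm]
          exact e1
        omega
      refine (card_le_card hsub).trans ?_
      rw [Nat.card_Icc]
      generalize 2 * Q / q = r
      omega
  refine (card_le_card h1).trans ?_
  refine card_biUnion_le.trans ?_
  have h5 : ∀ q ∈ Icc 1 Q, ((range (q + 1)).biUnion (fun i => T q i)).card ≤ 6 * Q := by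
    intro q hq
    rw [mem_Icc] at hq
    refine card_biUnion_le.trans ?_
    refine (sum_le_sum (fun i _ => hTc q i (by omega))).trans ?_
    rw [sum_const, card_range, smul_eq_mul]
    have e1 : q * (2 * Q / q) ≤ 2 * Q := Nat.mul_div_le _ _
    have e2 : 2 * Q / q ≤ 2 * Q := Nat.div_le_self _ _
    calc (q + 1) * (2 * Q / q + 1) = q * (2 * Q / q) + 2 * Q / q + q + 1 := by ring
      _ ≤ 6 * Q := by omega
  refine (sum_le_sum h5).trans ?_
  rw [sum_const, Nat.card_Icc, smul_eq_mul]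
  simp only [Nat.add_sub_cancel]
  apply le_of_eq
  ring

/-- T2 -/
theorem t2 : S_T2 := by
  classical
  intro f hf b b₂ x K D H Q hx hD hH _ hDK _ c hc δ ρ ε₁ hδ hρ _ Bad hBad hmin hcf
  have hK : 0 < K := lt_of_lt_of_le hD hDK
  have hx0 : (0 : ℝ) < x := by exact_mod_cast hx
  have hK0 : (0 : ℝ) < K := by exact_mod_cast hK
  have hD0 : (0 : ℝ) < D := by exact_mod_cast hD
  have hH0 : (0 : ℝ) < H := by exact_mod_cast hH
  set E₀ : ℝ := δ * (K / D) + D / K + (b * K + b₂ * H) / x with hE₀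
  have hE0 : 0 ≤ E₀ := by positivity
  set Maj : Finset ℕ := (range K).filter (fun j : ℕ => MA Q K ((j : ℝ) / K)) with hMaj
  set Y : ℕ → ℕ → ℝ := fun h h' => ∑ j ∈ Maj, ‖Gh c D h h' ((j : ℝ) / K)‖ ^ 2 with hY
  have hY0 : ∀ h h', 0 ≤ Y h h' := fun h h' => by positivity
  have hMc : (Maj.card : ℝ) ≤ 6 * (Q : ℝ) ^ 2 := by
    have := count_le K Q hK Maj (by
      intro j hj
      rw [hMaj, mem_filter, mem_range] at hj
      exact hj)
    exact_mod_cast this
  -- good pairs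
  have hgood : ∀ h g : ℕ, h ∈ Icc 1 H → g ∈ Icc 1 H → g ∉ Bad → QQ f b b₂ x D c h (h + g) ≤ E₀ + Y h (h + g) := by
    intro h g hh hg hgB
    rw [mem_Icc] at hh
    have h1 := QQ_le hf hc b b₂ hx hD hDK h g
    have h2 : ∑ j ∈ range K, ‖Gh c D h (h + g) ((j : ℝ) / K)‖ ^ 2 * SS f b x K (b₂ * g) ((j : ℝ) / K) ≤
        Y h (h + g) + δ * (K / D) := by
      rw [← sum_filter_add_sum_filter_not (range K) (fun j : ℕ => MA Q K ((j : ℝ) / K))]
      apply add_le_add
      · simp only [hY, hMaj]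
        apply sum_le_sum
        intro j _
        exact mul_le_of_le_one_right (by positivity) (SS_le_one hf _ hx _ _ _)
      · calc ∑ j ∈ (range K).filter (fun j : ℕ => ¬ MA Q K ((j : ℝ) / K)),
              ‖Gh c D h (h + g) ((j : ℝ) / K)‖ ^ 2 * SS f b x K (b₂ * g) ((j : ℝ) / K)
            ≤ ∑ j ∈ (range K).filter (fun j : ℕ => ¬ MA Q K ((j : ℝ) / K)),
              ‖Gh c D h (h + g) ((j : ℝ) / K)‖ ^ 2 * δ := by
              apply sum_le_sum
              intro j hj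
              rw [mem_filter] at hj
              exact mul_le_mul_of_nonneg_left (hmin g hg hgB _ hj.2) (by positivity)
          _ ≤ ∑ j ∈ range K, ‖Gh c D h (h + g) ((j : ℝ) / K)‖ ^ 2 * δ :=
              sum_le_sum_of_subset_of_nonneg (filter_subset _ _) (fun _ _ _ => by positivity)
          _ ≤ (K / D) * δ := by
              rw [← sum_mul]
              exact mul_le_mul_of_nonneg_right (Gh_sum hc hD hDK h (h + g)) hδ
          _ = _ := mul_comm _ _
    have h3 : ((b : ℝ) * K + b₂ * h) / x ≤ (b * K + b₂ * H) / x := by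
      apply div_le_div_of_nonneg_right _ hx0.le
      have : (h : ℝ) ≤ H := by exact_mod_cast hh.2
      have := mul_le_mul_of_nonneg_left this (Nat.cast_nonneg (α := ℝ) b₂)
      linarith
    simp only [hE₀]
    linarith
  -- all pairs
  have hall : ∀ h ∈ Icc 1 H, ∀ h' ∈ Icc 1 H, QQ f b b₂ x D c h h' ≤
      (if h' = h then 1 else 0) + (if h < h' ∧ h' - h ∈ Bad then 1 else 0) +
        (if h' < h ∧ h - h' ∈ Bad then 1 else 0) + E₀ + (Y h h' + Y h' h) := by
    intro h hh h' hh'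
    have hA : (0 : ℝ) ≤ (if h' = h then 1 else 0) := by split_ifs <;> norm_num
    have hB : (0 : ℝ) ≤ (if h < h' ∧ h' - h ∈ Bad then 1 else 0) := by split_ifs <;> norm_num
    have hC : (0 : ℝ) ≤ (if h' < h ∧ h - h' ∈ Bad then 1 else 0) := by split_ifs <;> norm_num
    have h1 := QQ_le_one hf hc b b₂ hx D h h'
    have h2 := hY0 h h'
    have h3 := hY0 h' h
    rw [mem_Icc] at hh hh'
    rcases lt_trichotomy h h' with hlt | heq | hlt
    · by_cases hb : h' - h ∈ Bad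
      · rw [if_pos (⟨hlt, hb⟩ : h < h' ∧ h' - h ∈ Bad)] at *
        linarith
      · have h4 := hgood h (h' - h) (mem_Icc.2 hh) (mem_Icc.2 ⟨by omega, by omega⟩) hb
        have h5 : h + (h' - h) = h' := by omega
        rw [h5] at h4
        linarith
    · rw [if_pos heq.symm] at *
      linarith
    · by_cases hb : h - h' ∈ Bad
      · rw [if_pos (⟨hlt, hb⟩ : h' < h ∧ h - h' ∈ Bad)] at *
        linarith
      · have h4 := hgood h' (h - h') (mem_Icc.2 hh') (mem_Icc.2 ⟨by omega, by omega⟩) hb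
        have h5 : h' + (h - h') = h := by omega
        rw [h5, QQ_symm] at h4
        linarith
  have hsum := sum_le_sum (fun h hh => sum_le_sum (hall h hh))
  simp only [sum_add_distrib] at hsum
  -- the parts
  have p1 : ∑ h ∈ Icc 1 H, ∑ h' ∈ Icc 1 H, (if h' = h then (1 : ℝ) else 0) ≤ H := by
    have : ∀ h ∈ Icc 1 H, ∑ h' ∈ Icc 1 H, (if h' = h then (1 : ℝ) else 0) = 1 := by
      intro h hh
      rw [sum_ite_eq' (Icc 1 H) h, if_pos hh]
    rw [sum_congr rfl this, sum_const, Nat.card_Icc, Nat.add_sub_cancel, nsmul_eq_mul, mul_one]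
  have p2 : ∀ h ∈ Icc 1 H, ∑ h' ∈ Icc 1 H, (if h < h' ∧ h' - h ∈ Bad then (1 : ℝ) else 0) ≤ ρ * H := by
    intro h _
    rw [← sum_filter, sum_const, nsmul_eq_mul, mul_one]
    refine le_trans ?_ hBad
    have : ((Icc 1 H).filter (fun h' => h < h' ∧ h' - h ∈ Bad)).card ≤ Bad.card := by
      apply card_le_card_of_injOn (fun h' => h' - h)
      · intro h' hh'
        rw [mem_coe, mem_filter] at hh'
        exact hh'.2.2
      · intro u hu v hv huv
        rw [mem_coe, mem_filter] at hu hv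
        simp only at huv
        omega
    exact_mod_cast this
  have p3 : ∑ h ∈ Icc 1 H, ∑ h' ∈ Icc 1 H, (if h < h' ∧ h' - h ∈ Bad then (1 : ℝ) else 0) ≤ H * (ρ * H) := by
    refine (sum_le_sum p2).trans ?_
    rw [sum_const, Nat.card_Icc, Nat.add_sub_cancel, nsmul_eq_mul]
  have p4 : ∑ h ∈ Icc 1 H, ∑ h' ∈ Icc 1 H, (if h' < h ∧ h - h' ∈ Bad then (1 : ℝ) else 0) ≤ H * (ρ * H) := by
    rw [sum_comm]
    exact p3
  have p5 : ∑ _h ∈ Icc 1 H, ∑ _h' ∈ Icc 1 H, E₀ = H * (H * E₀) := by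
    rw [sum_const, sum_const, Nat.card_Icc, Nat.add_sub_cancel, nsmul_eq_mul, nsmul_eq_mul]
  have p6 : ∑ h ∈ Icc 1 H, ∑ h' ∈ Icc 1 H, Y h h' ≤ 6 * (Q : ℝ) ^ 2 * (H * (ε₁ ^ 2 * D)) := by
    have e1 : ∑ h ∈ Icc 1 H, ∑ h' ∈ Icc 1 H, Y h h' =
        ∑ j ∈ Maj, ∑ h ∈ Icc 1 H, ∑ h' ∈ Icc 1 H, ‖Gh c D h h' ((j : ℝ) / K)‖ ^ 2 := by
      simp only [hY]
      have e2 : ∀ h ∈ Icc 1 H, ∑ h' ∈ Icc 1 H, ∑ j ∈ Maj, ‖Gh c D h h' ((j : ℝ) / K)‖ ^ 2 =
          ∑ j ∈ Maj, ∑ h' ∈ Icc 1 H, ‖Gh c D h h' ((j : ℝ) / K)‖ ^ 2 := fun h _ => sum_comm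
      rw [sum_congr rfl e2, sum_comm]
    rw [e1]
    refine (sum_le_sum (fun (j : ℕ) _ => Gh_avg hc hD ε₁ hcf ((j : ℝ) / K))).trans ?_
    rw [sum_const, nsmul_eq_mul]
    exact mul_le_mul_of_nonneg_right hMc (by positivity)
  have p7 : ∑ h ∈ Icc 1 H, ∑ h' ∈ Icc 1 H, Y h' h = ∑ h ∈ Icc 1 H, ∑ h' ∈ Icc 1 H, Y h h' := sum_comm
  rw [p5, p7] at hsum
  have h8 : ∑ h ∈ Icc 1 H, ∑ h' ∈ Icc 1 H, QQ f b b₂ x D c h h' ≤
      H + 2 * (H * (ρ * H)) + H * (H * E₀) + 2 * (6 * (Q : ℝ) ^ 2 * (H * (ε₁ ^ 2 * D))) := by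
    linarith
  rw [div_le_iff₀ (by positivity)]
  refine h8.trans ?_
  have h9 : (1 / (H : ℝ) + 2 * ρ + 2 * D / K + 2 * δ * K / D + 20 * (Q : ℝ) ^ 2 * ε₁ ^ 2 * D / H
          + 10 * (b * K + b₂ * H) / x) * (H : ℝ) ^ 2 =
      H + 2 * (H * (ρ * H)) + H * (H * (2 * (D / K) + 2 * (δ * (K / D)) + 10 * ((b * K + b₂ * H) / x))) +
        20 * (Q : ℝ) ^ 2 * (H * (ε₁ ^ 2 * D)) := by
    field_simp
    ring
  rw [h9, hE₀]
  have g1 : (0 : ℝ) ≤ D / K := by positivity
  have g2 : (0 : ℝ) ≤ δ * (K / D) := by positivity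
  have g3 : (0 : ℝ) ≤ (b * K + b₂ * H) / x := by positivity
  have g4 : (0 : ℝ) ≤ (Q : ℝ) ^ 2 * (H * (ε₁ ^ 2 * D)) := by positivity
  have g5 : (H : ℝ) * (H * (δ * (K / D) + D / K + (b * K + b₂ * H) / x)) ≤
      H * (H * (2 * (D / K) + 2 * (δ * (K / D)) + 10 * ((b * K + b₂ * H) / x))) := by
    apply mul_le_mul_of_nonneg_left _ hH0.le
    apply mul_le_mul_of_nonneg_left _ hH0.le
    linarith
  linarith

end Pool.Agent.N368.A3
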